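import Pool.Agent.Helper42.DB.Goals2

/-! Packet SIDE of MP_48f005_an: local sidedness of a family of rays. -/

set_option autoImplicit false

namespace Pool.Agent.Helper42.DB.PkSIDE

open Set Filter Topology MeasureTheory

theorem F_eq (hC : G_CRV) (c : Crv) (ν ν' θ θ' t : ℝ) :
    cr (ee θ') (c.G ν + t • ee θ - c.G ν') =
      (∫ s in ν'..ν, c.R s * Real.cos (s - θ')) + t * Real.sin (θ - θ') := by
  have h1 : c.G ν + t • ee θ - c.G ν' = (c.G ν - c.G ν') + t • ee θ := by ring
  rw [h1, cr_add_right, (hC c θ' ν' ν).1, cr_smul_right, cr_ee_ee]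

theorem cont_int (c : Crv) (φ : ℝ) : Continuous fun s => c.R s * Real.cos (s - φ) := by
  have := c.cont
  fun_prop

theorem lemA (c : Crv) {a b φ δ Rm : ℝ} (hab : a ≤ b) (hδ0 : 0 ≤ δ) (hδ1 : δ ≤ 1)
    (ha : |a - φ| ≤ Real.pi / 2 + δ) (hb : |b - φ| ≤ Real.pi / 2 + δ)
    (hR : ∀ s ∈ Icc a b, c.R s ≤ Rm) :
    -(Rm * Real.sin δ * (b - a)) ≤ ∫ s in a..b, c.R s * Real.cos (s - φ) := by
  have hpi := Real.pi_gt_three
  have hsin : 0 ≤ Real.sin δ := Real.sin_nonneg_of_nonneg_of_le_pi hδ0 (by linarith)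
  have h1 : ∀ s ∈ Icc a b, -(Rm * Real.sin δ) ≤ c.R s * Real.cos (s - φ) := by
    intro s hs
    have h2 : |s - φ| ≤ Real.pi / 2 + δ := by
      rw [abs_le] at ha hb ⊢
      constructor
      · linarith [ha.1, hs.1]
      · linarith [hb.2, hs.2]
    have h3 : -Real.sin δ ≤ Real.cos (s - φ) := by
      rw [← Real.cos_abs (s - φ)]
      have h4 : Real.cos (Real.pi / 2 + δ) = -Real.sin δ := by
        rw [add_comm, Real.cos_add_pi_div_two]
      rw [← h4]
      apply Real.cos_le_cos_of_nonneg_of_le_pi (abs_nonneg _) _ h2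
      linarith
    have h5 := c.nonneg s
    have h6 := hR s hs
    nlinarith
  calc -(Rm * Real.sin δ * (b - a)) = ∫ _s in a..b, -(Rm * Real.sin δ) := by
        rw [intervalIntegral.integral_const, smul_eq_mul]; ring
    _ ≤ _ := intervalIntegral.integral_mono_on hab (by simp)
        ((cont_int c φ).intervalIntegrable _ _) h1

theorem lemB (c : Crv) {a b φ : ℝ} (hR : ∀ u, 0 < c.R u) (hab : a ≤ b)
    (ha : |a - φ| < Real.pi / 2) (hb : |b - φ| < Real.pi / 2) :
    0 ≤ (∫ s in a..b, c.R s * Real.cos (s - φ)) ∧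
      (a < b → 0 < ∫ s in a..b, c.R s * Real.cos (s - φ)) := by
  have h1 : ∀ s ∈ Icc a b, 0 < c.R s * Real.cos (s - φ) := by
    intro s hs
    rw [abs_lt] at ha hb
    apply mul_pos (hR s)
    apply Real.cos_pos_of_mem_Ioo
    constructor
    · linarith [ha.1, hs.1]
    · linarith [hb.2, hs.2]
  constructor
  · exact intervalIntegral.integral_nonneg hab fun s hs => (h1 s hs).le
  · intro h
    exact intervalIntegral.intervalIntegral_pos_of_pos_on
      ((cont_int c φ).intervalIntegrable _ _) (fun s hs => h1 s (Ioo_subset_Icc_self hs)) h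

theorem sin_pos' {x : ℝ} (h0 : 0 < x) (h1 : x < 1) : 0 < Real.sin x :=
  Real.sin_pos_of_pos_of_lt_pi h0 (by linarith [Real.pi_gt_three])

theorem sin_nonneg' {x : ℝ} (h0 : 0 ≤ x) (h1 : x < 1) : 0 ≤ Real.sin x :=
  Real.sin_nonneg_of_nonneg_of_le_pi h0 (by linarith [Real.pi_gt_three])

theorem thm : G_CRV → G_SIDE := by
  intro hC c p q ν θ hpq hMP hS hle l hl t ht
  obtain ⟨hν, hθ, mν, mθ⟩ := hMP
  have hl' : l ∈ Icc p q := Ioo_subset_Icc_self hl
  have hnh : Icc p q ∈ 𝓝 l := Icc_mem_nhds hl.1 hl.2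
  have cν : ContinuousAt ν l := (hν l hl').continuousAt hnh
  have cθ : ContinuousAt θ l := (hθ l hl').continuousAt hnh
  obtain ⟨Rm, hRm⟩ : ∃ Rm, ∀ s ∈ Icc (ν l - 1) (ν l + 1), c.R s ≤ Rm := by
    obtain ⟨M, hM⟩ := (isCompact_Icc (a := ν l - 1) (b := ν l + 1)).exists_bound_of_continuousOn
      (c.cont.continuousOn)
    exact ⟨M, fun s hs => (le_abs_self _).trans (hM s hs)⟩
  have hRm0 : 0 ≤ Rm := (c.nonneg (ν l)).trans (hRm _ ⟨by linarith, by linarith⟩)
  have tν : Tendsto (fun l' => |ν l' - ν l|) (𝓝 l) (𝓝 0) := by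
    have h1 : ContinuousAt (fun l' => |ν l' - ν l|) l := (cν.sub continuousAt_const).abs
    have h2 := h1.tendsto
    simpa using h2
  have tθ : Tendsto (fun l' => |θ l' - θ l|) (𝓝 l) (𝓝 0) := by
    have h1 : ContinuousAt (fun l' => |θ l' - θ l|) l := (cθ.sub continuousAt_const).abs
    have h2 := h1.tendsto
    simpa using h2
  have tRν : Tendsto (fun l' => Rm * |ν l' - ν l|) (𝓝 l) (𝓝 0) := by
    simpa using tν.const_mul Rm
  have tsum : Tendsto (fun l' => |ν l' - ν l| + |θ l' - θ l|) (𝓝 l) (𝓝 0) := by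
    simpa using tν.add tθ
  suffices hev : ∀ᶠ l' in 𝓝 l,
      (l' < l → 0 < cr (ee (θ l')) (c.G (ν l) + t • ee (θ l) - c.G (ν l'))) ∧
      (l < l' → cr (ee (θ l')) (c.G (ν l) + t • ee (θ l) - c.G (ν l')) < 0) by
    obtain ⟨ε, hε, h⟩ := Metric.eventually_nhds_iff.1 hev
    refine ⟨ε, hε, ?_, ?_⟩
    · intro l' hl1
      refine (h ?_).1 hl1.2
      rw [Real.dist_eq, abs_lt]
      constructor <;> linarith [hl1.1, hl1.2]
    · intro l' hl1
      refine (h ?_).2 hl1.1
      rw [Real.dist_eq, abs_lt]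
      constructor <;> linarith [hl1.1, hl1.2]
  rcases hS with hA | ⟨hR, hlt, hinj⟩
  · filter_upwards [hnh, tν.eventually_lt_const one_pos, tθ.eventually_lt_const one_pos,
      tRν.eventually_lt_const ht] with l' h1 h2 h3 h4
    constructor
    · intro hlt'
      rw [F_eq hC]
      have h5 : ν l' ≤ ν l := mν h1 hl' hlt'.le
      have h6 : θ l' < θ l := hA h1 hl' hlt'
      have h7 := hle l hl'
      have h8 := hle l' h1
      rw [abs_sub_comm, abs_of_nonneg (by linarith)] at h2 h3 h4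
      have h9 := lemA c (φ := θ l') (δ := θ l - θ l') (Rm := Rm) h5 (by linarith) h3.le
        (by
          rw [abs_le] at h7 h8 ⊢
          constructor <;> linarith [h7.1, h7.2, h8.1, h8.2])
        (by
          rw [abs_le] at h7 h8 ⊢
          constructor <;> linarith [h7.1, h7.2, h8.1, h8.2])
        (fun s hs => hRm s ⟨by linarith [hs.1], by linarith [hs.2]⟩)
      have h10 := sin_pos' (sub_pos.2 h6) h3
      have h11 : 0 < (t - Rm * (ν l - ν l')) * Real.sin (θ l - θ l') :=
        mul_pos (by linarith) h10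
      linarith
    · intro hlt'
      rw [F_eq hC, intervalIntegral.integral_symm]
      have h5 : ν l ≤ ν l' := mν hl' h1 hlt'.le
      have h6 : θ l < θ l' := hA hl' h1 hlt'
      have h7 := hle l hl'
      have h8 := hle l' h1
      rw [abs_of_nonneg (by linarith)] at h2 h3 h4
      have h9 := lemA c (φ := θ l') (δ := θ l' - θ l) (Rm := Rm) h5 (by linarith) h3.le
        (by
          rw [abs_le] at h7 h8 ⊢
          constructor <;> linarith [h7.1, h7.2, h8.1, h8.2])
        (by
          rw [abs_le] at h7 h8 ⊢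
          constructor <;> linarith [h7.1, h7.2, h8.1, h8.2])
        (fun s hs => hRm s ⟨by linarith [hs.1], by linarith [hs.2]⟩)
      have h10 := sin_pos' (sub_pos.2 h6) h3
      have h11 : 0 < (t - Rm * (ν l' - ν l)) * Real.sin (θ l' - θ l) :=
        mul_pos (by linarith) h10
      have h12 : Real.sin (θ l - θ l') = -Real.sin (θ l' - θ l) := by
        rw [← Real.sin_neg]; ring_nf
      rw [h12]
      linarith
  · have hgap : 0 < Real.pi / 2 - |θ l - ν l| := by linarith [hlt l hl']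
    filter_upwards [hnh, tθ.eventually_lt_const one_pos, tsum.eventually_lt_const hgap]
      with l' h1 h3 h4
    have hb1 : |ν l - θ l'| < Real.pi / 2 := by
      have h5 : |ν l - θ l'| ≤ |θ l - ν l| + |θ l' - θ l| := by
        have h6 : ν l - θ l' = -((θ l - ν l) + (θ l' - θ l)) := by ring
        rw [h6, abs_neg]
        exact abs_add_le _ _
      have h7 := abs_nonneg (ν l' - ν l)
      linarith
    have hb2 : |ν l' - θ l'| < Real.pi / 2 := by
      rw [abs_sub_comm]
      exact hlt l' h1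
    constructor
    · intro hlt'
      rw [F_eq hC]
      have h5 : ν l' ≤ ν l := mν h1 hl' hlt'.le
      have h6 : θ l' ≤ θ l := mθ h1 hl' hlt'.le
      rw [abs_sub_comm (θ l'), abs_of_nonneg (by linarith : 0 ≤ θ l - θ l')] at h3
      obtain ⟨h7, h8⟩ := lemB c hR h5 hb2 hb1
      rcases hinj l' h1 l hl' hlt' with h9 | h9
      · have h10 := h8 h9
        have h11 := mul_nonneg ht.le (sin_nonneg' (sub_nonneg.2 h6) h3)
        linarith
      · have h11 := mul_pos ht (sin_pos' (sub_pos.2 h9) h3)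
        linarith
    · intro hlt'
      rw [F_eq hC, intervalIntegral.integral_symm]
      have h5 : ν l ≤ ν l' := mν hl' h1 hlt'.le
      have h6 : θ l ≤ θ l' := mθ hl' h1 hlt'.le
      rw [abs_of_nonneg (by linarith : 0 ≤ θ l' - θ l)] at h3
      obtain ⟨h7, h8⟩ := lemB c hR h5 hb1 hb2
      have h12 : Real.sin (θ l - θ l') = -Real.sin (θ l' - θ l) := by
        rw [← Real.sin_neg]; ring_nf
      rw [h12]
      rcases hinj l hl' l' h1 hlt' with h9 | h9
      · have h10 := h8 h9
        have h11 := mul_nonneg ht.le (sin_nonneg' (sub_nonneg.2 h6) h3)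
        linarith
      · have h11 := mul_pos ht (sin_pos' (sub_pos.2 h9) h3)
        linarith

end Pool.Agent.Helper42.DB.PkSIDE
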