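import Pool.Agent.Helper42.DB.Goals3

/-! Packet TRG of MP_48f005_an: periodic orbits with tangential collisions, table and system. -/

set_option autoImplicit false

namespace Pool.Agent.Helper42.DB.PkTRG

open Set Filter Topology

theorem ee_arg {v : ℂ} (hv : ‖v‖ = 1) : ee (Complex.arg v) = v := by
  apply Complex.ext
  · rw [ee_re, Complex.cos_arg (by intro h; rw [h, norm_zero] at hv; exact zero_ne_one hv), hv,
      div_one]
  · rw [ee_im, Complex.sin_arg, hv, div_one]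

theorem exists_phi {v : ℂ} (hv : ‖v‖ = 1) (u : ℝ) (h : 0 ≤ dt v (ee u)) :
    ∃ φ : ℝ, |φ| ≤ Real.pi / 2 ∧ v = ee (u + φ) := by
  obtain ⟨a, ha⟩ : ∃ a, ee a = v := ⟨_, ee_arg hv⟩
  refine ⟨((a - u : ℝ) : Real.Angle).toReal, ?_, ?_⟩
  · have h1 : Real.cos ((a - u : ℝ) : Real.Angle).toReal = Real.cos (a - u) := by
      rw [Real.Angle.cos_toReal, Real.Angle.cos_coe]
    have h2 : 0 ≤ Real.cos ((a - u : ℝ) : Real.Angle).toReal := by
      rw [h1]
      rw [← ha, dt_ee_ee, ← Real.cos_neg, neg_sub] at h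
      exact h
    by_contra hcon
    push Not at hcon
    have h3 := Real.Angle.neg_pi_lt_toReal ((a - u : ℝ) : Real.Angle)
    have h4 := Real.Angle.toReal_le_pi ((a - u : ℝ) : Real.Angle)
    have h5 : |((a - u : ℝ) : Real.Angle).toReal| ≤ Real.pi := abs_le.2 ⟨h3.le, h4⟩
    have h6 := Real.cos_neg_of_pi_div_two_lt_of_lt hcon (by linarith [Real.pi_pos])
    rw [Real.cos_abs] at h6
    linarith
  · rw [← ha]
    have hc : Real.cos ((a - u : ℝ) : Real.Angle).toReal = Real.cos (a - u) := by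
      rw [Real.Angle.cos_toReal, Real.Angle.cos_coe]
    have hs : Real.sin ((a - u : ℝ) : Real.Angle).toReal = Real.sin (a - u) := by
      rw [Real.Angle.sin_toReal, Real.Angle.sin_coe]
    apply Complex.ext
    · rw [ee_re, ee_re, Real.cos_add, hc, hs, ← Real.cos_add]
      congr 1; ring
    · rw [ee_im, ee_im, Real.sin_add, hc, hs, ← Real.sin_add]
      congr 1; ring

theorem ee_refl (u φ : ℝ) : ee (u - φ) = (2 * Real.cos φ) • ee u - ee (u + φ) := by
  apply Complex.ext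
  · simp only [ee_re, Complex.sub_re, Complex.smul_re, smul_eq_mul, Real.cos_sub, Real.cos_add]
    ring
  · simp only [ee_im, Complex.sub_im, Complex.smul_im, smul_eq_mul, Real.sin_sub, Real.sin_add]
    ring

theorem unique_normal (C : CTab) {p N N' : ℂ} (h : (p, N) ∈ C.RP) (h' : (p, N') ∈ C.RP) :
    N = N' := by
  obtain ⟨i, u, hu, hx⟩ := h
  obtain ⟨j, v, hv, hy⟩ := h'
  rw [Prod.mk.injEq] at hx hy
  have h1 := C.simple i j u v hu ⟨hv.1, hv.2.1.le, fun _ => hv.2.1⟩ (hx.1.symm.trans hy.1)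
  rw [hx.2, hy.2, h1.2]

theorem BStep.mono {Y : Set ℂ} {RP : Set (ℂ × ℂ)} {x y : ℂ × ℂ} (h : BStep Y RP False x y) :
    BStep Y RP True x y := by
  obtain ⟨h1, N, M, τ, h2, h3, h4, h5, h6, h7, h8, h9⟩ := h
  refine ⟨h1, N, M, τ, h2, h3, h4, h5, h6, ?_, ?_, h9⟩
  · rcases h7 with h7 | h7
    · exact Or.inl h7
    · exact h7.1.elim
  · rcases h8 with h8 | h8
    · exact Or.inl h8
    · exact h8.1.elim

theorem BOrb.mono {Y : Set ℂ} {RP : Set (ℂ × ℂ)} {O : Set (ℂ × ℂ)} (h : BOrb Y RP False O) :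
    BOrb Y RP True O := by
  obtain ⟨z, p, hp, hz, hper, hO⟩ := h
  exact ⟨z, p, hp, fun k => BStep.mono (hz k), hper, hO⟩

/-- The phase point of a state. -/
noncomputable def Φ {S : Sys} (x : St S) : ℂ × ℂ := (x.pos, ee x.th)

theorem thm : G_TRG := by
  intro C S hRef hper n hfin
  obtain ⟨hY, hR1, hR2⟩ := hRef
  have hU := hper n
  have hsub : {O : Set (ℂ × ℂ) | BOrb C.Y C.RP False O ∧ O.ncard ≤ n} ⊆
      {O : Set (ℂ × ℂ) | BOrb C.Y C.RP True O ∧ O.ncard ≤ n} :=
    fun O hO => ⟨BOrb.mono hO.1, hO.2⟩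
  refine ⟨Set.ncard_le_ncard hsub hU, ?_⟩
  set U := {O : Set (ℂ × ℂ) | BOrb C.Y C.RP True O ∧ O.ncard ≤ n} with hUdef
  set V := {O : Set (ℂ × ℂ) | BOrb C.Y C.RP False O ∧ O.ncard ≤ n} with hVdef
  let Tg : Set (Set (ℂ × ℂ)) := {O | O ∈ U ∧ ∃ X ∈ O, ∃ N, (X.1, N) ∈ C.RP ∧ dt X.2 N = 0}
  have hcov : U ⊆ V ∪ Tg := by
    intro O hO
    by_cases ht : ∃ X ∈ O, ∃ N, (X.1, N) ∈ C.RP ∧ dt X.2 N = 0
    · exact Or.inr ⟨hO, ht⟩
    · left
      push Not at ht
      obtain ⟨⟨z, p, hp, hz, hzp, hOz⟩, hc⟩ := hO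
      refine ⟨⟨z, p, hp, ?_, hzp, hOz⟩, hc⟩
      intro k
      have hmem : ∀ k, z k ∈ O := fun k => hOz ▸ mem_range_self k
      obtain ⟨h1, N, M, τ, h2, h3, h4, h5, h6, h7, h8, h9⟩ := hz k
      refine ⟨h1, N, M, τ, h2, h3, h4, h5, h6, ?_, ?_, h9⟩
      · rcases h7 with h7 | h7
        · exact Or.inl h7
        · exact absurd h7.2 (ht _ (hmem k) N h2)
      · rcases h8 with h8 | h8
        · exact Or.inl h8
        · exfalso
          have h10 : (z (k + 1)).2 = (z k).2 := by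
            rw [h9, h8.2]
            simp
          exact ht _ (hmem (k + 1)) M h3 (by rw [h10]; exact h8.2)
  have hTg : Tg ⊆ (fun O' : Set (St S) => Φ '' O') '' (TanOrb S n) := by
    rintro O ⟨⟨hB, hc⟩, X0, hX0, N0, hN0, hN0'⟩
    obtain ⟨z, p, hp, hz, hzp, hOz⟩ := hB
    have hmem : ∀ k, z k ∈ O := fun k => hOz ▸ mem_range_self k
    have hB' : BOrb C.Y C.RP True O := ⟨z, p, hp, hz, hzp, hOz⟩
    have hstate : ∀ X : O, ∃ x : St S, x.OkG ∧ Φ x = X.1 ∧ (X.1.1, ee x.u) ∈ C.RP := by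
      rintro ⟨X, hX⟩
      have hX' := hX
      rw [hOz] at hX'
      obtain ⟨k, hk⟩ := hX'
      obtain ⟨h1, N, M, τ, h2, _, _, _, _, h7, _, _⟩ := hz k
      rw [hk] at h1 h2 h7
      have hDD : X.1 ∈ C.DD := ⟨O, hB', X.2, hX⟩
      obtain ⟨i, u, hu, hg, he⟩ := hR2 X.1 N h2 hDD
      have h10 : 0 ≤ dt X.2 (ee u) := by
        rw [he]
        rcases h7 with h7 | h7
        · exact h7.le
        · exact h7.2.ge
      obtain ⟨φ, hφ, hv⟩ := exists_phi h1 u h10
      refine ⟨⟨i, u, φ⟩, ⟨hu, hφ⟩, ?_, ?_⟩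
      · apply Prod.ext
        · exact hg
        · exact hv.symm
      · show (X.1, ee u) ∈ C.RP
        rw [he]
        exact h2
    choose F hF1 hF2 hF3 using hstate
    let x : ℕ → St S := fun k => F ⟨z k, hmem k⟩
    have hxpos : ∀ k, (x k).pos = (z k).1 := fun k => congrArg Prod.fst (hF2 ⟨z k, hmem k⟩)
    have hxth : ∀ k, ee (x k).th = (z k).2 := fun k => congrArg Prod.snd (hF2 ⟨z k, hmem k⟩)
    have hxRP : ∀ k, ((z k).1, ee (x k).u) ∈ C.RP := fun k => hF3 ⟨z k, hmem k⟩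
    have hxper : ∀ k, x (k + p) = x k := fun k =>
      congrArg F (Subtype.ext (hzp k))
    have hΦ : ∀ k, Φ (x k) = z k := fun k => hF2 ⟨z k, hmem k⟩
    have himg : Φ '' (range x) = O := by
      rw [hOz, ← range_comp]
      congr 1
      funext k
      exact hΦ k
    have hinj : InjOn Φ (range x) := by
      rintro _ ⟨k, rfl⟩ _ ⟨l, rfl⟩ hkl
      rw [hΦ, hΦ] at hkl
      exact congrArg F (Subtype.ext hkl)
    refine ⟨range x, ⟨⟨x, p, hp, ?_, hxper, rfl⟩, ?_, ?_⟩, himg⟩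
    · intro k
      obtain ⟨h1, N, M, τ, h2, h3, h4, h5, h6, h7, h8, h9⟩ := hz k
      have hM : M = ee (x (k + 1)).u := unique_normal C h3 (hxRP (k + 1))
      refine ⟨hF1 _, hF1 _, ?_, τ, h4, ?_, ?_⟩
      · have hbk : ee (x (k + 1)).bk = (2 * Real.cos (x (k + 1)).φ) • ee (x (k + 1)).u -
            ee (x (k + 1)).th := ee_refl _ _
        have hcos : Real.cos (x (k + 1)).φ = -dt (z k).2 M := by
          have h10 : Real.cos (x (k + 1)).φ = dt (ee (x (k + 1)).u) (ee (x (k + 1)).th) := by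
            rw [dt_ee_ee]
            congr 1
            unfold St.th
            ring
          rw [h10, hxth, h9, ← hM]
          have h11 : ((2 * dt (z k).2 M : ℝ) : ℂ) * M = (2 * dt (z k).2 M) • M := by
            rw [Complex.real_smul]
          rw [h11, dt_sub_right, dt_smul_right, dt_self, hM, norm_ee, dt_comm (ee _) (z k).2]
          ring
        rw [hbk, hcos, hxth (k + 1), h9, hxth k, ← hM]
        have h11 : ((2 * dt (z k).2 M : ℝ) : ℂ) * M = (2 * dt (z k).2 M) • M := by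
          rw [Complex.real_smul]
        rw [h11]
        have h12 : (2 * -dt (z k).2 M) • M = -((2 * dt (z k).2 M) • M) := by
          rw [← neg_smul]
          congr 1
          ring
        rw [h12]
        ring
      · rw [hxpos, hxpos, hxth, h5, Complex.real_smul]
      · intro s hs
        rw [hxpos, hxth, hY, Complex.real_smul]
        exact h6 s hs
    · have h10 : (Φ '' (range x)).ncard = (range x).ncard := hinj.ncard_image
      rw [← h10, himg]
      exact hc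
    · rw [hOz] at hX0
      obtain ⟨k, rfl⟩ := hX0
      refine ⟨x k, mem_range_self k, ?_⟩
      have hN : N0 = ee (x k).u := unique_normal C hN0 (hxRP k)
      have hcos : Real.cos (x k).φ = 0 := by
        rw [← hN0', hN, ← hxth k, dt_ee_ee, ← Real.cos_neg]
        congr 1
        unfold St.th
        ring
      have hle : |(x k).φ| ≤ Real.pi / 2 := (hF1 ⟨z k, hmem k⟩).2
      rcases lt_or_eq_of_le hle with h11 | h11
      · exfalso
        have h12 : 0 < Real.cos (x k).φ :=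
          Real.cos_pos_of_mem_Ioo ⟨(abs_lt.1 h11).1, (abs_lt.1 h11).2⟩
        linarith
      · exact h11
  have hVT : (V ∪ Tg).Finite := hU.subset (union_subset hsub fun O hO => hO.1)
  calc bf C.Y C.RP True n = U.ncard := rfl
    _ ≤ (V ∪ Tg).ncard := Set.ncard_le_ncard hcov hVT
    _ ≤ V.ncard + Tg.ncard := Set.ncard_union_le V Tg
    _ ≤ V.ncard + (TanOrb S n).ncard := by
        gcongr
        exact (Set.ncard_le_ncard hTg (hfin.image _)).trans (Set.ncard_image_le hfin)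
    _ = bf C.Y C.RP False n + (TanOrb S n).ncard := rfl

end Pool.Agent.Helper42.DB.PkTRG
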